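import Mathlib

set_option autoImplicit false

/-!
Two point correlations of the quadratic character modulo `p`, and the number of residues `x` for
which the characters of `x + k`, `k ∈ K`, are all equal.
-/

open Finset

namespace Pool.Agent.Helper8.RU

lemma corr {p : ℕ} [Fact p.Prime] (hp : p ≠ 2) {d : ZMod p} (hd : d ≠ 0) :
    ∑ z : ZMod p, quadraticChar (ZMod p) (z + d) * quadraticChar (ZMod p) z = -1 := by
  classical
  have h0 : ∑ z : ZMod p, quadraticChar (ZMod p) z = 0 :=
    quadraticChar_sum_zero (by rw [ZMod.ringChar_zmod_n]; exact hp)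
  have h1 : ∑ z : ZMod p, quadraticChar (ZMod p) (z + d) * quadraticChar (ZMod p) z =
      ∑ z ∈ univ.erase (0 : ZMod p),
        quadraticChar (ZMod p) (z + d) * quadraticChar (ZMod p) z := by
    rw [← Finset.add_sum_erase univ _ (mem_univ (0 : ZMod p))]
    simp
  have h2 : ∑ z ∈ univ.erase (0 : ZMod p),
      quadraticChar (ZMod p) (z + d) * quadraticChar (ZMod p) z =
      ∑ y ∈ univ.erase (1 : ZMod p), quadraticChar (ZMod p) y := by
    refine Finset.sum_nbij' (fun z => 1 + d * z⁻¹) (fun y => d * (y - 1)⁻¹) ?_ ?_ ?_ ?_ ?_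
    · intro z hz
      simp only [mem_erase, mem_univ, and_true] at hz ⊢
      intro h
      have : d * z⁻¹ = 0 := by simpa using h
      rcases mul_eq_zero.1 this with h' | h'
      · exact hd h'
      · exact hz (inv_eq_zero.1 h')
    · intro y hy
      simp only [mem_erase, mem_univ, and_true] at hy ⊢
      exact mul_ne_zero hd (inv_ne_zero (sub_ne_zero.2 hy))
    · intro z hz
      simp only [mem_erase, mem_univ, and_true] at hz
      have : (1 : ZMod p) + d * z⁻¹ - 1 = d * z⁻¹ := by ring
      simp only [this]
      field_simp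
    · intro y hy
      simp only [mem_erase, mem_univ, and_true] at hy
      have h := sub_ne_zero.2 hy
      field_simp
      ring
    · intro z hz
      simp only [mem_erase, mem_univ, and_true] at hz
      have h3 : z + d = z * (1 + d * z⁻¹) := by field_simp
      have h4 : quadraticChar (ZMod p) z * quadraticChar (ZMod p) z = 1 := by
        have := quadraticChar_sq_one hz
        rwa [sq] at this
      rw [h3, map_mul]
      calc quadraticChar (ZMod p) z * quadraticChar (ZMod p) (1 + d * z⁻¹) *
            quadraticChar (ZMod p) z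
          = (quadraticChar (ZMod p) z * quadraticChar (ZMod p) z) *
            quadraticChar (ZMod p) (1 + d * z⁻¹) := by ring
        _ = quadraticChar (ZMod p) (1 + d * z⁻¹) := by rw [h4, one_mul]
  rw [h1, h2]
  have h5 := Finset.add_sum_erase univ (fun y : ZMod p => quadraticChar (ZMod p) y)
    (mem_univ (1 : ZMod p))
  simp only [map_one] at h5
  rw [h0] at h5
  linarith

lemma corr' {p : ℕ} [Fact p.Prime] (hp : p ≠ 2) {k l : ZMod p} (hkl : k ≠ l) :
    ∑ x : ZMod p, quadraticChar (ZMod p) (x + k) * quadraticChar (ZMod p) (x + l) = -1 := by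
  rw [← corr hp (sub_ne_zero.2 hkl)]
  refine Fintype.sum_equiv (Equiv.addRight l) _ _ fun x => ?_
  simp only [Equiv.coe_addRight]
  rw [show x + l + (k - l) = x + k by ring]

/-- The residues for which all `χ (x + k)` are equal to one sign. -/
noncomputable def Same (p : ℕ) [Fact p.Prime] (K : Finset (ZMod p)) : Finset (ZMod p) :=
  univ.filter fun x => (∀ k ∈ K, quadraticChar (ZMod p) (x + k) = 1) ∨
    (∀ k ∈ K, quadraticChar (ZMod p) (x + k) = -1)

lemma same_card {p : ℕ} [Fact p.Prime] (hp : p ≠ 2) (K : Finset (ZMod p)) (hK : K.Nonempty) :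
    (Same p K).card * K.card + (K.card - 1) ≤ p - 1 := by
  classical
  have hR : 1 ≤ K.card := hK.card_pos
  have h1 : ∑ x : ZMod p, (∑ k ∈ K, quadraticChar (ZMod p) (x + k)) ^ 2 =
      (K.card : ℤ) * (p - 1) - K.card * (K.card - 1) := by
    have e1 : ∀ x : ZMod p, (∑ k ∈ K, quadraticChar (ZMod p) (x + k)) ^ 2 =
        ∑ k ∈ K, ∑ l ∈ K, quadraticChar (ZMod p) (x + k) * quadraticChar (ZMod p) (x + l) := by
      intro x
      rw [sq, Finset.sum_mul_sum]
    simp_rw [e1]
    rw [Finset.sum_comm]
    have e2 : ∀ k ∈ K, ∑ x : ZMod p, ∑ l ∈ K,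
        quadraticChar (ZMod p) (x + k) * quadraticChar (ZMod p) (x + l) =
        ((p : ℤ) - 1) - (K.card - 1) := by
      intro k hk
      rw [Finset.sum_comm]
      rw [← Finset.add_sum_erase K _ hk]
      have e3 : ∑ x : ZMod p, quadraticChar (ZMod p) (x + k) * quadraticChar (ZMod p) (x + k) =
          (p : ℤ) - 1 := by
        have e4 : ∑ x : ZMod p, quadraticChar (ZMod p) (x + k) * quadraticChar (ZMod p) (x + k) =
            ∑ x : ZMod p, quadraticChar (ZMod p) x * quadraticChar (ZMod p) x := by
          refine Fintype.sum_equiv (Equiv.addRight k) _ _ fun x => ?_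
          simp
        rw [e4, ← Finset.add_sum_erase univ _ (mem_univ (0 : ZMod p))]
        have e5 : ∀ x ∈ univ.erase (0 : ZMod p),
            quadraticChar (ZMod p) x * quadraticChar (ZMod p) x = 1 := by
          intro x hx
          simp only [mem_erase, mem_univ, and_true] at hx
          have := quadraticChar_sq_one hx
          rwa [sq] at this
        rw [Finset.sum_congr rfl e5]
        simp only [MulChar.map_zero, mul_zero, zero_add, sum_const, nsmul_eq_mul, mul_one]
        rw [Finset.card_erase_of_mem (mem_univ _), Finset.card_univ, ZMod.card]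
        have : 1 ≤ p := (Fact.out : p.Prime).one_le
        push_cast [Nat.cast_sub this]
        ring
      have e6 : ∀ l ∈ K.erase k, ∑ x : ZMod p,
          quadraticChar (ZMod p) (x + k) * quadraticChar (ZMod p) (x + l) = -1 := by
        intro l hl
        exact corr' hp (Finset.ne_of_mem_erase hl).symm
      rw [e3, Finset.sum_congr rfl e6]
      simp only [sum_const, nsmul_eq_mul, mul_neg, mul_one]
      rw [Finset.card_erase_of_mem hk]
      push_cast [Nat.cast_sub hR]
      ring
    rw [Finset.sum_congr rfl e2]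
    simp only [sum_const, nsmul_eq_mul]
    ring
  have h2 : ((Same p K).card : ℤ) * (K.card : ℤ) ^ 2 ≤
      ∑ x : ZMod p, (∑ k ∈ K, quadraticChar (ZMod p) (x + k)) ^ 2 := by
    calc ((Same p K).card : ℤ) * (K.card : ℤ) ^ 2 = ∑ x ∈ Same p K, (K.card : ℤ) ^ 2 := by
          simp
      _ ≤ ∑ x ∈ Same p K, (∑ k ∈ K, quadraticChar (ZMod p) (x + k)) ^ 2 := by
          refine Finset.sum_le_sum fun x hx => ?_
          simp only [Same, mem_filter, mem_univ, true_and] at hx
          rcases hx with hx | hx
          · rw [Finset.sum_congr rfl hx]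
            simp
          · rw [Finset.sum_congr rfl hx]
            simp
      _ ≤ _ := by
          refine Finset.sum_le_sum_of_subset_of_nonneg (Finset.subset_univ _) fun _ _ _ => sq_nonneg _
  rw [h1] at h2
  have hR' : (1 : ℤ) ≤ K.card := by exact_mod_cast hR
  have h3 : ((Same p K).card : ℤ) * K.card + (K.card - 1) ≤ p - 1 := by
    have : (K.card : ℤ) * (((Same p K).card : ℤ) * K.card) ≤ K.card * ((p - 1) - (K.card - 1)) := by
      nlinarith [h2]
    have := le_of_mul_le_mul_left this (by linarith)
    linarith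
  have hp1 : 1 ≤ p := (Fact.out : p.Prime).one_le
  zify [hR, hp1]
  exact h3

end Pool.Agent.Helper8.RU
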