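import Mathlib

set_option autoImplicit false

/-!
Gallagher's larger sieve in an abstract form.
-/

open Finset

namespace Pool.Agent.Helper8.RU

lemma prime_log_le {P : Finset ℕ} (hP : ∀ p ∈ P, p.Prime) {n : ℕ} (hn : 0 < n) :
    ∑ p ∈ P.filter (fun p => p ∣ n), Real.log p ≤ Real.log n := by
  have h1 : ∏ p ∈ P.filter (fun p => p ∣ n), p ∣ n := by
    apply Finset.prod_primes_dvd n
    · intro p hp
      exact (hP p (Finset.mem_filter.1 hp).1).prime
    · intro p hp
      exact (Finset.mem_filter.1 hp).2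
  have h2 : ∏ p ∈ P.filter (fun p => p ∣ n), p ≤ n := Nat.le_of_dvd hn h1
  have h3 : ∑ p ∈ P.filter (fun p => p ∣ n), Real.log p =
      Real.log ((∏ p ∈ P.filter (fun p => p ∣ n), p : ℕ) : ℝ) := by
    push_cast
    rw [Real.log_prod]
    intro p hp
    have := (hP p (Finset.mem_filter.1 hp).1).pos
    positivity
  rw [h3]
  apply Real.log_le_log
  · have : 0 < ∏ p ∈ P.filter (fun p => p ∣ n), p :=
      Finset.prod_pos fun p hp => (hP p (Finset.mem_filter.1 hp).1).pos
    exact_mod_cast this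
  · exact_mod_cast h2

lemma card_sq_le {α β : Type} [DecidableEq α] [DecidableEq β] (A : Finset α) (f : α → β) :
    (A.card : ℝ) ^ 2 ≤ ((A.image f).card : ℝ) *
      (((A ×ˢ A).filter fun z => f z.1 = f z.2).card : ℝ) := by
  have h1 : (A.card : ℝ) = ∑ b ∈ A.image f, ((A.filter fun x => f x = b).card : ℝ) := by
    exact_mod_cast Finset.card_eq_sum_card_image f A
  have h2 : (((A ×ˢ A).filter fun z => f z.1 = f z.2).card : ℝ) =
      ∑ b ∈ A.image f, ((A.filter fun x => f x = b).card : ℝ) ^ 2 := by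
    have h3 : ((A ×ˢ A).filter fun z => f z.1 = f z.2).card =
        ∑ b ∈ A.image f, (((A ×ˢ A).filter fun z => f z.1 = f z.2).filter
          fun z => f z.1 = b).card := by
      apply Finset.card_eq_sum_card_fiberwise
      intro z hz
      simp only [coe_filter, mem_product, Set.mem_ofPred_eq] at hz
      exact Finset.mem_coe.2 (Finset.mem_image_of_mem f hz.1.1)
    rw [h3]
    push_cast
    refine Finset.sum_congr rfl fun b _ => ?_
    have h4 : ((A ×ˢ A).filter fun z => f z.1 = f z.2).filter (fun z => f z.1 = b) =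
        (A.filter fun x => f x = b) ×ˢ (A.filter fun x => f x = b) := by
      ext z
      simp only [mem_filter, mem_product]
      constructor
      · rintro ⟨⟨⟨h5, h6⟩, h7⟩, h8⟩
        exact ⟨⟨h5, h8⟩, ⟨h6, h7 ▸ h8⟩⟩
      · rintro ⟨⟨h5, h6⟩, ⟨h7, h8⟩⟩
        exact ⟨⟨⟨h5, h7⟩, h6.trans h8.symm⟩, h6⟩
    rw [h4, Finset.card_product]
    push_cast
    ring
  rw [h1, h2]
  have := Finset.sum_mul_sq_le_sq_mul_sq (A.image f) (fun _ => (1 : ℝ))
    (fun b => ((A.filter fun x => f x = b).card : ℝ))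
  simp only [one_mul, one_pow, sum_const, nsmul_eq_mul, mul_one] at this
  exact this

/-- Larger sieve. -/
lemma larger_sieve {α : Type} [DecidableEq α] {β : ℕ → Type} [∀ p, DecidableEq (β p)]
    (A : Finset α) (P : Finset ℕ) (hP : ∀ p ∈ P, p.Prime) (cl : ∀ p : ℕ, α → β p)
    (D : α → α → ℕ) (M : ℝ) (hM : 1 ≤ M)
    (hD : ∀ x ∈ A, ∀ y ∈ A, x ≠ y → 0 < D x y ∧ (D x y : ℝ) ≤ M)
    (hcl : ∀ p ∈ P, ∀ x ∈ A, ∀ y ∈ A, cl p x = cl p y → p ∣ D x y)
    (ν : ℕ → ℝ) (hν : ∀ p ∈ P, 0 < ν p ∧ (((A.image (cl p)).card : ℕ) : ℝ) ≤ ν p)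
    (hT : Real.log M + 1 ≤ ∑ p ∈ P, Real.log p / ν p) :
    (A.card : ℝ) ≤ ∑ p ∈ P, Real.log p := by
  classical
  rcases A.eq_empty_or_nonempty with hA | hA
  · rw [hA]
    simp only [card_empty, Nat.cast_zero]
    exact Finset.sum_nonneg fun p hp => Real.log_natCast_nonneg p
  have hlogM : 0 ≤ Real.log M := Real.log_nonneg hM
  have hA0 : (0 : ℝ) < A.card := by exact_mod_cast hA.card_pos
  -- per prime
  have h1 : ∀ p ∈ P, (A.card : ℝ) ^ 2 * (Real.log p / ν p) ≤
      Real.log p * (((A ×ˢ A).filter fun z => cl p z.1 = cl p z.2).card : ℝ) := by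
    intro p hp
    obtain ⟨hν0, hν1⟩ := hν p hp
    have h2 := card_sq_le A (cl p)
    have h3 : (A.card : ℝ) ^ 2 ≤ ν p *
        (((A ×ˢ A).filter fun z => cl p z.1 = cl p z.2).card : ℝ) :=
      h2.trans (mul_le_mul_of_nonneg_right hν1 (Nat.cast_nonneg _))
    have hlog : 0 ≤ Real.log p := Real.log_natCast_nonneg p
    calc (A.card : ℝ) ^ 2 * (Real.log p / ν p)
        ≤ (ν p * (((A ×ˢ A).filter fun z => cl p z.1 = cl p z.2).card : ℝ)) *
          (Real.log p / ν p) := mul_le_mul_of_nonneg_right h3 (by positivity)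
      _ = Real.log p * (((A ×ˢ A).filter fun z => cl p z.1 = cl p z.2).card : ℝ) := by
          field_simp
  have h2 : (A.card : ℝ) ^ 2 * ∑ p ∈ P, Real.log p / ν p ≤
      ∑ p ∈ P, Real.log p * (((A ×ˢ A).filter fun z => cl p z.1 = cl p z.2).card : ℝ) := by
    rw [Finset.mul_sum]
    exact Finset.sum_le_sum h1
  have h3 : ∑ p ∈ P, Real.log p * (((A ×ˢ A).filter fun z => cl p z.1 = cl p z.2).card : ℝ) =
      ∑ z ∈ A ×ˢ A, ∑ p ∈ P.filter (fun p => cl p z.1 = cl p z.2), Real.log p := by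
    have e1 : ∀ p ∈ P, Real.log p *
        (((A ×ˢ A).filter fun z => cl p z.1 = cl p z.2).card : ℝ) =
        ∑ z ∈ A ×ˢ A, if cl p z.1 = cl p z.2 then Real.log p else 0 := by
      intro p _
      rw [← Finset.sum_filter, Finset.sum_const, nsmul_eq_mul, mul_comm]
    rw [Finset.sum_congr rfl e1, Finset.sum_comm]
    refine Finset.sum_congr rfl fun z _ => ?_
    rw [Finset.sum_filter]
  have h4 : ∑ z ∈ A ×ˢ A, ∑ p ∈ P.filter (fun p => cl p z.1 = cl p z.2), Real.log p ≤
      ∑ z ∈ A ×ˢ A, ((if z.1 = z.2 then ∑ p ∈ P, Real.log p else 0) + Real.log M) := by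
    refine Finset.sum_le_sum fun z hz => ?_
    rw [Finset.mem_product] at hz
    by_cases hz' : z.1 = z.2
    · rw [if_pos hz']
      have : ∑ p ∈ P.filter (fun p => cl p z.1 = cl p z.2), Real.log p ≤ ∑ p ∈ P, Real.log p :=
        Finset.sum_le_sum_of_subset_of_nonneg (Finset.filter_subset _ _)
          fun p _ _ => Real.log_natCast_nonneg p
      linarith
    · rw [if_neg hz', zero_add]
      obtain ⟨hD0, hD1⟩ := hD z.1 hz.1 z.2 hz.2 hz'
      calc ∑ p ∈ P.filter (fun p => cl p z.1 = cl p z.2), Real.log p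
          ≤ ∑ p ∈ P.filter (fun p => p ∣ D z.1 z.2), Real.log p := by
            refine Finset.sum_le_sum_of_subset_of_nonneg (fun p hp => ?_)
              fun p _ _ => Real.log_natCast_nonneg p
            rw [Finset.mem_filter] at hp ⊢
            exact ⟨hp.1, hcl p hp.1 z.1 hz.1 z.2 hz.2 hp.2⟩
        _ ≤ Real.log (D z.1 z.2) := prime_log_le hP hD0
        _ ≤ Real.log M := Real.log_le_log (by exact_mod_cast hD0) hD1
  have h5 : ∑ z ∈ A ×ˢ A, ((if z.1 = z.2 then ∑ p ∈ P, Real.log p else 0) + Real.log M) =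
      A.card * ∑ p ∈ P, Real.log p + (A.card : ℝ) ^ 2 * Real.log M := by
    rw [Finset.sum_add_distrib, Finset.sum_const, nsmul_eq_mul, Finset.card_product,
      Finset.sum_product]
    have e2 : ∀ x ∈ A, ∑ y ∈ A, (if x = y then ∑ p ∈ P, Real.log p else 0) =
        ∑ p ∈ P, Real.log p := by
      intro x hx
      rw [Finset.sum_ite_eq A x]
      simp [hx]
    simp only
    rw [Finset.sum_congr rfl e2]
    simp only [sum_const, nsmul_eq_mul]
    push_cast
    ring
  have h6 : (A.card : ℝ) ^ 2 * (Real.log M + 1) ≤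
      A.card * ∑ p ∈ P, Real.log p + (A.card : ℝ) ^ 2 * Real.log M := by
    calc (A.card : ℝ) ^ 2 * (Real.log M + 1)
        ≤ (A.card : ℝ) ^ 2 * ∑ p ∈ P, Real.log p / ν p :=
          mul_le_mul_of_nonneg_left hT (by positivity)
      _ ≤ _ := by rw [← h5]; exact h2.trans (h3 ▸ h4)
  have h7 : (A.card : ℝ) * A.card ≤ A.card * ∑ p ∈ P, Real.log p := by nlinarith [h6]
  exact le_of_mul_le_mul_left h7 hA0

end Pool.Agent.Helper8.RU
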