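import Mathlib

set_option autoImplicit false

/-!
Sums of `log p / (p - 1)` over primes: Mertens' bounds.
-/

open Finset

namespace Pool.Agent.Helper8.RU

lemma sum_log_div_le {n : ℕ} (hn : 1 ≤ n) :
    ∑ p ∈ (range (n + 1)).filter Nat.Prime, Real.log p / p ≤ Real.log n + Real.log 4 := by
  have hn' : (0 : ℝ) < n := by exact_mod_cast hn
  set P := (range (n + 1)).filter Nat.Prime with hP
  have hprime : ∀ p ∈ P, p.Prime := fun p hp => (Finset.mem_filter.mp hp).2
  have hdvd : ∏ p ∈ P, p ^ (n / p) ∣ n.factorial := by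
    refine Finset.prod_dvd_of_isRelPrime (fun p hp q hq hpq => ?_) (fun p hp => ?_)
    · exact Nat.coprime_iff_isRelPrime.mp (Nat.Coprime.pow _ _
        ((Nat.coprime_primes (hprime p hp) (hprime q hq)).mpr hpq))
    · rw [(hprime p hp).pow_dvd_factorial_iff (b := Nat.log p n + 2) (by omega)]
      have h1 : n / p ^ 1 ≤ ∑ i ∈ Finset.Ico 1 (Nat.log p n + 2), n / p ^ i :=
        Finset.single_le_sum (f := fun i => n / p ^ i) (fun _ _ => Nat.zero_le _)
          (Finset.mem_Ico.mpr ⟨le_rfl, by omega⟩)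
      rwa [pow_one] at h1
  have h1 : ((∏ p ∈ P, p ^ (n / p) : ℕ) : ℝ) ≤ (n.factorial : ℝ) := by
    exact_mod_cast Nat.le_of_dvd n.factorial_pos hdvd
  have h2 : (n.factorial : ℝ) ≤ (n : ℝ) ^ n := by exact_mod_cast Nat.factorial_le_pow n
  have hpos : (0 : ℝ) < ((∏ p ∈ P, p ^ (n / p) : ℕ) : ℝ) := by
    have : 0 < ∏ p ∈ P, p ^ (n / p) := Finset.prod_pos fun p hp => pow_pos (hprime p hp).pos _
    exact_mod_cast this
  have h3 := Real.log_le_log hpos (h1.trans h2)
  rw [Real.log_pow] at h3
  push_cast at h3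
  rw [Real.log_prod (fun p hp => by
    have : (0 : ℝ) < p := by exact_mod_cast (hprime p hp).pos
    positivity)] at h3
  simp only [Real.log_pow] at h3
  have h4 : ∀ p ∈ P, (n : ℝ) * (Real.log p / p) - Real.log p ≤ ((n / p : ℕ) : ℝ) * Real.log p := by
    intro p hp
    have hp0 : (0 : ℝ) < p := by exact_mod_cast (hprime p hp).pos
    have hlog : 0 ≤ Real.log p := Real.log_nonneg (by exact_mod_cast (hprime p hp).one_le)
    have h5 : (n : ℝ) / p - 1 ≤ ((n / p : ℕ) : ℝ) := by
      have h6 : n < p * (n / p + 1) := Nat.lt_mul_div_succ n (hprime p hp).pos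
      have h7 : (n : ℝ) < p * (((n / p : ℕ) : ℝ) + 1) := by exact_mod_cast h6
      have h8 : (n : ℝ) / p < ((n / p : ℕ) : ℝ) + 1 := by
        rw [div_lt_iff₀ hp0]
        linarith
      linarith
    calc (n : ℝ) * (Real.log p / p) - Real.log p = ((n : ℝ) / p - 1) * Real.log p := by
          field_simp
      _ ≤ _ := mul_le_mul_of_nonneg_right h5 hlog
  have h5 := Finset.sum_le_sum h4
  rw [Finset.sum_sub_distrib, ← Finset.mul_sum] at h5
  have h6 : ∑ p ∈ P, Real.log p ≤ Real.log 4 * n := by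
    have h7 := Chebyshev.theta_le_log4_mul_x (x := (n : ℝ)) hn'.le
    refine le_trans (le_of_eq ?_) h7
    rw [Chebyshev.theta_eq_sum_Icc, Nat.floor_natCast]
    refine Finset.sum_congr ?_ fun _ _ => rfl
    ext p
    rw [hP, Finset.mem_filter, Finset.mem_filter, Finset.mem_range, Finset.mem_Icc]
    constructor
    · rintro ⟨h8, h9⟩
      exact ⟨⟨Nat.zero_le _, by omega⟩, h9⟩
    · rintro ⟨⟨-, h8⟩, h9⟩
      exact ⟨by omega, h9⟩
  have h7 : (n : ℝ) * ∑ p ∈ P, Real.log p / p ≤ n * (Real.log n + Real.log 4) := by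
    linarith
  exact le_of_mul_le_mul_left h7 hn'

/-- lower bound of Mertens type -/
lemma sum_log_ge {n : ℕ} (hn : 1 ≤ n) :
    Real.log n - 1 ≤ ∑ p ∈ (range (n + 1)).filter Nat.Prime, Real.log p / ((p : ℝ) - 1) := by
  have hn' : (0 : ℝ) < n := by exact_mod_cast hn
  -- lower bound for `log n!`
  have h1 : (n : ℝ) * Real.log n - n ≤ Real.log (n.factorial : ℝ) := by
    have h2 := Real.pow_div_factorial_le_exp (n : ℝ) hn'.le n
    have hf : (0 : ℝ) < (n.factorial : ℝ) := by exact_mod_cast n.factorial_pos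
    have h3 := Real.log_le_log (by positivity) h2
    rw [Real.log_exp, Real.log_div (by positivity) hf.ne', Real.log_pow] at h3
    linarith
  have h2 : Real.log (n.factorial : ℝ) ≤
      ∑ p ∈ (range (n + 1)).filter Nat.Prime, (n : ℝ) * (Real.log p / ((p : ℝ) - 1)) := by
    rw [Real.log_nat_eq_sum_factorization, Finsupp.sum, Nat.support_factorization]
    calc ∑ p ∈ n.factorial.primeFactors, (n.factorial.factorization p : ℝ) * Real.log p
        ≤ ∑ p ∈ n.factorial.primeFactors, (n : ℝ) * (Real.log p / ((p : ℝ) - 1)) := by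
          refine Finset.sum_le_sum fun p hp => ?_
          have hpp : p.Prime := Nat.prime_of_mem_primeFactors hp
          have : Fact p.Prime := ⟨hpp⟩
          have h3 := sub_one_mul_padicValNat_factorial (p := p) n
          have h4 : (p - 1) * n.factorial.factorization p ≤ n := by
            rw [Nat.factorization_def _ hpp, h3]
            exact Nat.sub_le _ _
          have hp2 : (2 : ℝ) ≤ p := by exact_mod_cast hpp.two_le
          have h5 : ((p : ℝ) - 1) * (n.factorial.factorization p : ℝ) ≤ n := by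
            have : (((p - 1) * n.factorial.factorization p : ℕ) : ℝ) ≤ n := by exact_mod_cast h4
            rwa [Nat.cast_mul, Nat.cast_sub hpp.one_le, Nat.cast_one] at this
          have h6 : (n.factorial.factorization p : ℝ) ≤ n / ((p : ℝ) - 1) := by
            rw [le_div_iff₀ (by linarith)]
            linarith
          have hlog : 0 ≤ Real.log p := Real.log_natCast_nonneg p
          calc (n.factorial.factorization p : ℝ) * Real.log p
              ≤ n / ((p : ℝ) - 1) * Real.log p := mul_le_mul_of_nonneg_right h6 hlog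
            _ = (n : ℝ) * (Real.log p / ((p : ℝ) - 1)) := by ring
      _ ≤ _ := by
          refine Finset.sum_le_sum_of_subset_of_nonneg (fun p hp => ?_) fun p hp _ => ?_
          · rw [Finset.mem_filter, Finset.mem_range]
            have hpp : p.Prime := Nat.prime_of_mem_primeFactors hp
            have hd : p ∣ n.factorial := Nat.dvd_of_mem_primeFactors hp
            exact ⟨Nat.lt_succ_of_le ((hpp.dvd_factorial).1 hd), hpp⟩
          · have hpp : p.Prime := (Finset.mem_filter.1 hp).2
            have hp2 : (2 : ℝ) ≤ p := by exact_mod_cast hpp.two_le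
            have hlog : 0 ≤ Real.log p := Real.log_natCast_nonneg p
            have : 0 ≤ Real.log p / ((p : ℝ) - 1) := div_nonneg hlog (by linarith)
            positivity
  rw [← Finset.mul_sum] at h2
  have h3 : (n : ℝ) * (Real.log n - 1) ≤ n *
      ∑ p ∈ (range (n + 1)).filter Nat.Prime, Real.log p / ((p : ℝ) - 1) := by
    linarith
  exact le_of_mul_le_mul_left h3 hn'

/-- upper bound of Mertens type -/
lemma sum_log_le {n : ℕ} (hn : 1 ≤ n) :
    ∑ p ∈ (range (n + 1)).filter Nat.Prime, Real.log p / ((p : ℝ) - 1) ≤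
      2 * (Real.log n + Real.log 4) := by
  refine le_trans ?_ (mul_le_mul_of_nonneg_left (sum_log_div_le hn) (by norm_num : (0:ℝ) ≤ 2))
  rw [Finset.mul_sum]
  refine Finset.sum_le_sum fun p hp => ?_
  have hpp : p.Prime := (Finset.mem_filter.1 hp).2
  have hp2 : (2 : ℝ) ≤ p := by exact_mod_cast hpp.two_le
  have hlog : 0 ≤ Real.log p := Real.log_natCast_nonneg p
  have h1 : (0 : ℝ) < p - 1 := by linarith
  rw [div_le_iff₀ h1]
  have h2 : 2 * (Real.log p / p) * (p - 1) = Real.log p * (2 * (p - 1) / p) := by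
    ring
  rw [h2]
  have h3 : 1 ≤ 2 * ((p : ℝ) - 1) / p := by
    rw [le_div_iff₀ (by linarith)]
    linarith
  nlinarith

lemma theta_le {n : ℕ} :
    ∑ p ∈ (range (n + 1)).filter Nat.Prime, Real.log p ≤ Real.log 4 * n := by
  have hn' : (0 : ℝ) ≤ n := Nat.cast_nonneg n
  have h7 := Chebyshev.theta_le_log4_mul_x (x := (n : ℝ)) hn'
  refine le_trans (le_of_eq ?_) h7
  rw [Chebyshev.theta_eq_sum_Icc, Nat.floor_natCast]
  refine Finset.sum_congr ?_ fun _ _ => rfl
  ext p
  rw [Finset.mem_filter, Finset.mem_filter, Finset.mem_range, Finset.mem_Icc]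
  constructor
  · rintro ⟨h8, h9⟩
    exact ⟨⟨Nat.zero_le _, by omega⟩, h9⟩
  · rintro ⟨⟨-, h8⟩, h9⟩
    exact ⟨by omega, h9⟩

/-- the primes in `(z, y]` -/
def Pr (z y : ℕ) : Finset ℕ := (range (y + 1)).filter fun p => p.Prime ∧ z < p

lemma Pr_prime {z y p : ℕ} (hp : p ∈ Pr z y) : p.Prime := (Finset.mem_filter.1 hp).2.1

lemma Pr_gt {z y p : ℕ} (hp : p ∈ Pr z y) : z < p := (Finset.mem_filter.1 hp).2.2

lemma Pr_sum_ge {z y : ℕ} (hz : 1 ≤ z) (hy : 1 ≤ y) :
    Real.log y - 1 - 2 * (Real.log z + Real.log 4) ≤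
      ∑ p ∈ Pr z y, Real.log p / ((p : ℝ) - 1) := by
  have h1 := sum_log_ge hy
  have h2 := sum_log_le hz
  have h3 : ∑ p ∈ (range (y + 1)).filter Nat.Prime, Real.log p / ((p : ℝ) - 1) ≤
      ∑ p ∈ Pr z y, Real.log p / ((p : ℝ) - 1) +
        ∑ p ∈ (range (z + 1)).filter Nat.Prime, Real.log p / ((p : ℝ) - 1) := by
    have hnn : ∀ p : ℕ, p.Prime → 0 ≤ Real.log p / ((p : ℝ) - 1) := by
      intro p hpp
      have hp2 : (2 : ℝ) ≤ p := by exact_mod_cast hpp.two_le
      exact div_nonneg (Real.log_natCast_nonneg p) (by linarith)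
    have h4 : (range (y + 1)).filter Nat.Prime ⊆
        Pr z y ∪ (range (z + 1)).filter Nat.Prime := by
      intro p hp
      rw [Finset.mem_filter, Finset.mem_range] at hp
      rw [Finset.mem_union, Pr, Finset.mem_filter, Finset.mem_filter, Finset.mem_range,
        Finset.mem_range]
      by_cases h : z < p
      · exact Or.inl ⟨hp.1, hp.2, h⟩
      · exact Or.inr ⟨by omega, hp.2⟩
    refine (Finset.sum_le_sum_of_subset_of_nonneg h4 fun p hp _ => ?_).trans ?_
    · rw [Finset.mem_union] at hp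
      rcases hp with hp | hp
      · exact hnn p (Pr_prime hp)
      · exact hnn p (Finset.mem_filter.1 hp).2
    · rw [← Finset.sum_union_inter]
      have : 0 ≤ ∑ p ∈ Pr z y ∩ (range (z + 1)).filter Nat.Prime,
          Real.log p / ((p : ℝ) - 1) := by
        refine Finset.sum_nonneg fun p hp => hnn p ?_
        exact Pr_prime (Finset.mem_inter.1 hp).1
      linarith
  linarith

lemma Pr_theta {z y : ℕ} : ∑ p ∈ Pr z y, Real.log p ≤ Real.log 4 * y := by
  refine le_trans ?_ theta_le
  refine Finset.sum_le_sum_of_subset_of_nonneg (fun p hp => ?_) fun p _ _ =>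
    Real.log_natCast_nonneg p
  rw [Pr, Finset.mem_filter] at hp
  rw [Finset.mem_filter]
  exact ⟨hp.1, hp.2.1⟩

end Pool.Agent.Helper8.RU
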