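import Pool.Agent.Helper8.RU.RUa
import Pool.Agent.Helper8.RU.RUb
import Pool.Agent.Helper8.RU.RUc

set_option autoImplicit false

/-!
The number of moduli `q ≤ X` with many squares in a short progression.
-/

open Finset

namespace Pool.Agent.Helper8.RU

/-- the point `b / q` modulo `p` -/
def cl (p : ℕ) (z : ℕ × ℕ) : Option (ZMod p) :=
  if (z.1 : ZMod p) = 0 then none else some ((z.2 : ZMod p) * (z.1 : ZMod p)⁻¹)

/-- the determinant of two points -/
def D (z w : ℕ × ℕ) : ℕ := Int.natAbs ((z.2 : ℤ) * w.1 - (w.2 : ℤ) * z.1)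

lemma cl_dvd {p : ℕ} (hp : p.Prime) {z w : ℕ × ℕ} (h : cl p z = cl p w) : p ∣ D z w := by
  have : Fact p.Prime := ⟨hp⟩
  rw [D, ← Int.natCast_dvd, ← ZMod.intCast_zmod_eq_zero_iff_dvd]
  push_cast
  unfold cl at h
  by_cases hz : (z.1 : ZMod p) = 0
  · rw [if_pos hz] at h
    by_cases hw : (w.1 : ZMod p) = 0
    · rw [hz, hw]; ring
    · rw [if_neg hw] at h
      exact absurd h (by simp)
  · rw [if_neg hz] at h
    by_cases hw : (w.1 : ZMod p) = 0
    · rw [if_pos hw] at h
      exact absurd h (by simp)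
    · rw [if_neg hw, Option.some.injEq] at h
      field_simp at h
      rw [sub_eq_zero]
      linear_combination h

/-- `z = (q, b)`: all `q k + b` are squares -/
def Good (K : Finset ℕ) (z : ℕ × ℕ) : Prop := ∀ k ∈ K, IsSquare (z.1 * k + z.2)

lemma image_card {p : ℕ} (hp : p.Prime) (hp2 : p ≠ 2) (K : Finset ℕ) (hK : K.Nonempty)
    (hKp : ∀ k ∈ K, k < p) (A : Finset (ℕ × ℕ)) (hA : ∀ z ∈ A, Good K z) :
    (((A.image (cl p)).card : ℕ) : ℝ) ≤ ((p : ℝ) - 1) / K.card + K.card + 1 := by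
  have : Fact p.Prime := ⟨hp⟩
  classical
  set K' : Finset (ZMod p) := K.image (fun k : ℕ => (k : ZMod p)) with hK'
  have hcard : K'.card = K.card := by
    apply Finset.card_image_of_injOn
    intro k hk l hl hkl
    have h1 := (ZMod.natCast_eq_natCast_iff' k l p).1 hkl
    rwa [Nat.mod_eq_of_lt (hKp k hk), Nat.mod_eq_of_lt (hKp l hl)] at h1
  have hne : K'.Nonempty := hK.image _
  have hsub : A.image (cl p) ⊆
      insert none ((Same p K' ∪ K'.image (fun k => -k)).image (fun x => some x)) := by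
    intro c hc
    rw [Finset.mem_image] at hc
    obtain ⟨z, hz, rfl⟩ := hc
    unfold cl
    by_cases h0 : (z.1 : ZMod p) = 0
    · rw [if_pos h0]
      exact Finset.mem_insert_self _ _
    · rw [if_neg h0]
      refine Finset.mem_insert_of_mem (Finset.mem_image_of_mem _ ?_)
      set x : ZMod p := (z.2 : ZMod p) * (z.1 : ZMod p)⁻¹ with hx
      by_cases h1 : ∃ k ∈ K', x + k = 0
      · obtain ⟨k, hk, hk0⟩ := h1
        refine Finset.mem_union_right _ (Finset.mem_image.2 ⟨k, hk, ?_⟩)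
        rw [← sub_eq_zero]
        linear_combination -hk0
      · push Not at h1
        refine Finset.mem_union_left _ ?_
        have h2 : ∀ k ∈ K', quadraticChar (ZMod p) (x + k) = quadraticChar (ZMod p) (z.1 : ZMod p) := by
          intro k hk
          obtain ⟨k₀, hk₀, rfl⟩ := Finset.mem_image.1 hk
          obtain ⟨m, hm⟩ := hA z hz k₀ hk₀
          have h3 : (z.1 : ZMod p) * (x + (k₀ : ZMod p)) = (m : ZMod p) * m := by
            have h4 : ((z.1 * k₀ + z.2 : ℕ) : ZMod p) = ((m * m : ℕ) : ZMod p) := by rw [hm]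
            push_cast at h4
            rw [← h4, hx]
            field_simp
            ring
          have h5 : (z.1 : ZMod p) * (x + (k₀ : ZMod p)) ≠ 0 := mul_ne_zero h0 (h1 _ hk)
          have h6 : quadraticChar (ZMod p) ((z.1 : ZMod p) * (x + (k₀ : ZMod p))) = 1 := by
            rw [quadraticChar_one_iff_isSquare h5]
            exact ⟨m, h3⟩
          rw [map_mul] at h6
          have h7 := quadraticChar_sq_one h0
          rcases quadraticChar_dichotomy h0 with h8 | h8
          · rw [h8] at h6 ⊢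
            linarith
          · rw [h8] at h6 ⊢
            linarith
        unfold Same
        rw [Finset.mem_filter]
        refine ⟨Finset.mem_univ _, ?_⟩
        rcases quadraticChar_dichotomy h0 with h8 | h8
        · exact Or.inl fun k hk => (h2 k hk).trans h8
        · exact Or.inr fun k hk => (h2 k hk).trans h8
  have h1 : (A.image (cl p)).card ≤ (Same p K').card + K.card + 1 := by
    calc (A.image (cl p)).card ≤ _ := Finset.card_le_card hsub
      _ ≤ ((Same p K' ∪ K'.image (fun k => -k)).image (fun x => some x)).card + 1 :=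
          Finset.card_insert_le _ _
      _ ≤ (Same p K' ∪ K'.image (fun k => -k)).card + 1 := by
          gcongr
          exact Finset.card_image_le
      _ ≤ ((Same p K').card + (K'.image (fun k => -k)).card) + 1 := by
          gcongr
          exact Finset.card_union_le _ _
      _ ≤ (Same p K').card + K.card + 1 := by
          have := Finset.card_image_le (s := K') (f := fun k => -k)
          omega
  have h2 := same_card hp2 K' hne
  rw [hcard] at h2
  have hR : (0 : ℝ) < K.card := by exact_mod_cast hK.card_pos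
  have h3 : ((Same p K').card : ℝ) ≤ ((p : ℝ) - 1) / K.card := by
    rw [le_div_iff₀ hR]
    have h4 : (Same p K').card * K.card ≤ p - 1 := by omega
    have h5 : (((Same p K').card * K.card : ℕ) : ℝ) ≤ ((p - 1 : ℕ) : ℝ) := by exact_mod_cast h4
    rw [Nat.cast_sub hp.one_le] at h5
    push_cast at h5
    linarith
  have h4 : (((A.image (cl p)).card : ℕ) : ℝ) ≤ (Same p K').card + K.card + 1 := by
    exact_mod_cast h1
  linarith

/-- the points for one pattern -/
noncomputable def Pts (X B : ℕ) (K : Finset ℕ) : Finset (ℕ × ℕ) := by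
  classical
  exact (Icc 1 X ×ˢ range (B + 1)).filter fun z => Nat.Coprime z.1 z.2 ∧ Good K z

lemma mem_Pts {X B : ℕ} {K : Finset ℕ} {z : ℕ × ℕ} : z ∈ Pts X B K ↔
    (1 ≤ z.1 ∧ z.1 ≤ X) ∧ z.2 ≤ B ∧ Nat.Coprime z.1 z.2 ∧ Good K z := by
  classical
  unfold Pts
  rw [Finset.mem_filter, Finset.mem_product, Finset.mem_Icc, Finset.mem_range]
  constructor
  · rintro ⟨⟨h1, h2⟩, h3, h4⟩
    exact ⟨h1, by omega, h3, h4⟩
  · rintro ⟨h1, h2, h3, h4⟩
    exact ⟨⟨h1, by omega⟩, h3, h4⟩

lemma D_pos {z w : ℕ × ℕ} (hz : 1 ≤ z.1) (_hw : 1 ≤ w.1) (hcz : Nat.Coprime z.1 z.2)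
    (hcw : Nat.Coprime w.1 w.2) (h : z ≠ w) : 0 < D z w := by
  rw [D, Int.natAbs_pos]
  intro h0
  apply h
  have h1 : z.2 * w.1 = w.2 * z.1 := by
    have : (z.2 : ℤ) * w.1 = (w.2 : ℤ) * z.1 := by linarith
    exact_mod_cast this
  have h2 : z.1 ∣ w.1 := by
    have : z.1 ∣ z.2 * w.1 := by rw [h1]; exact Dvd.intro_left _ rfl
    exact hcz.dvd_of_dvd_mul_left this
  have h3 : w.1 ∣ z.1 := by
    have : w.1 ∣ w.2 * z.1 := by rw [← h1]; exact Dvd.intro_left _ rfl
    exact hcw.dvd_of_dvd_mul_left this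
  have h4 : z.1 = w.1 := Nat.dvd_antisymm h2 h3
  have h5 : z.2 = w.2 := by
    rw [h4] at h1
    exact Nat.eq_of_mul_eq_mul_right (by omega) h1
  exact Prod.ext h4 h5

lemma D_le {z w : ℕ × ℕ} {X B : ℕ} (hz : z.1 ≤ X) (hw : w.1 ≤ X) (hz2 : z.2 ≤ B)
    (hw2 : w.2 ≤ B) : D z w ≤ B * X := by
  unfold D
  have h1 : z.2 * w.1 ≤ B * X := Nat.mul_le_mul hz2 hw
  have h2 : w.2 * z.1 ≤ B * X := Nat.mul_le_mul hw2 hz
  have h1' : (z.2 : ℤ) * w.1 ≤ B * X := by exact_mod_cast h1
  have h2' : (w.2 : ℤ) * z.1 ≤ B * X := by exact_mod_cast h2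
  have h3 : (0 : ℤ) ≤ (z.2 : ℤ) * w.1 := by positivity
  have h4 : (0 : ℤ) ≤ (w.2 : ℤ) * z.1 := by positivity
  zify
  rw [abs_le]
  constructor <;> linarith

/-- One pattern. -/
lemma pattern_count {X B N₁ : ℕ} (hX : 1 ≤ X) (hB : 1 ≤ B) (K : Finset ℕ) (hK : K.Nonempty)
    (hKN : ∀ k ∈ K, k < N₁) :
    ((Pts X B K).card : ℝ) ≤ 2 * Real.log 4 * Real.exp (2 / (K.card : ℝ) *
      (Real.log ((B : ℝ) * X) + 1) + 1 +
        2 * (Real.log ((N₁ + K.card * (K.card + 1) + 2 : ℕ) : ℝ) + Real.log 4)) := by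
  classical
  set R := K.card with hR
  have hR1 : 1 ≤ R := hK.card_pos
  have hR1' : (1 : ℝ) ≤ R := by exact_mod_cast hR1
  set z := N₁ + R * (R + 1) + 2 with hz
  set E := 2 / (R : ℝ) * (Real.log ((B : ℝ) * X) + 1) + 1 +
    2 * (Real.log (z : ℝ) + Real.log 4) with hE
  set y := ⌈Real.exp E⌉₊ with hy
  have hy1 : Real.exp E ≤ y := Nat.le_ceil _
  have hypos : 0 < Real.exp E := Real.exp_pos E
  have hBX : (1 : ℝ) ≤ (B : ℝ) * X := by
    have : 1 ≤ B * X := Nat.mul_pos hB hX
    exact_mod_cast this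
  have hlogBX : 0 ≤ Real.log ((B : ℝ) * X) := Real.log_nonneg hBX
  have hE0 : 0 ≤ E := by
    have h1 : 0 ≤ Real.log (z : ℝ) := Real.log_natCast_nonneg z
    have h2 : 0 ≤ Real.log 4 := Real.log_nonneg (by norm_num)
    positivity
  have hexp1 : 1 ≤ Real.exp E := Real.one_le_exp hE0
  have hyn : 1 ≤ y := by
    have : (1 : ℝ) ≤ y := hexp1.trans hy1
    exact_mod_cast this
  have hy2 : (y : ℝ) ≤ 2 * Real.exp E := by
    have := Nat.ceil_lt_add_one hypos.le
    linarith
  have hlogy : E ≤ Real.log y := by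
    rw [Real.le_log_iff_exp_le (by linarith)]
    exact hy1
  have hsum := Pr_sum_ge (z := z) (y := y) (by omega) hyn
  have key := larger_sieve (β := fun p => Option (ZMod p)) (Pts X B K) (Pr z y)
    (fun p hp => Pr_prime hp) cl D ((B : ℝ) * X) hBX
    (fun x hx w hw hxw => by
      obtain ⟨⟨h1, h2⟩, h3, h4, h5⟩ := mem_Pts.1 hx
      obtain ⟨⟨h6, h7⟩, h8, h9, h10⟩ := mem_Pts.1 hw
      refine ⟨D_pos h1 h6 h4 h9 hxw, ?_⟩
      exact_mod_cast D_le h2 h7 h3 h8)
    (fun p hp x _ w _ h => cl_dvd (Pr_prime hp) h)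
    (fun p => 2 * ((p : ℝ) - 1) / R)
    (fun p hp => by
      have hpz := Pr_gt hp
      have hpp := Pr_prime hp
      have hp1 : N₁ + R * (R + 1) + 2 < p := hpz
      have h1 : (1 : ℝ) < p := by exact_mod_cast hpp.one_lt
      have hRR : (R : ℝ) * (R + 1) + 1 ≤ p := by
        have : R * (R + 1) + 1 ≤ p := by omega
        exact_mod_cast this
      refine ⟨by
        apply div_pos
        · linarith
        · linarith, ?_⟩
      have h2 := image_card hpp (by omega) K hK (fun k hk => by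
        have := hKN k hk
        omega) (Pts X B K) (fun w hw => (mem_Pts.1 hw).2.2.2)
      refine h2.trans ?_
      rw [← hR]
      have h3 : (R : ℝ) + 1 ≤ ((p : ℝ) - 1) / R := by
        rw [le_div_iff₀ (by linarith)]
        nlinarith
      have h4 : 2 * ((p : ℝ) - 1) / R = ((p : ℝ) - 1) / R + ((p : ℝ) - 1) / R := by ring
      linarith)
    (by
      have h1 : ∑ p ∈ Pr z y, Real.log p / (2 * ((p : ℝ) - 1) / R) =
          (R : ℝ) / 2 * ∑ p ∈ Pr z y, Real.log p / ((p : ℝ) - 1) := by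
        rw [Finset.mul_sum]
        refine Finset.sum_congr rfl fun p hp => ?_
        have h1 : (1 : ℝ) < p := by exact_mod_cast (Pr_prime hp).one_lt
        have h2 : (p : ℝ) - 1 ≠ 0 := by
          have : (0 : ℝ) < p - 1 := by linarith
          exact this.ne'
        have h3 : (R : ℝ) ≠ 0 := by positivity
        field_simp
      rw [h1]
      have h2 : 2 / (R : ℝ) * (Real.log ((B : ℝ) * X) + 1) ≤
          ∑ p ∈ Pr z y, Real.log p / ((p : ℝ) - 1) := by
        have : 2 / (R : ℝ) * (Real.log ((B : ℝ) * X) + 1) =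
          E - 1 - 2 * (Real.log (z : ℝ) + Real.log 4) := by rw [hE]; ring
        rw [this]
        linarith
      have h3 : Real.log ((B : ℝ) * X) + 1 =
          (R : ℝ) / 2 * (2 / (R : ℝ) * (Real.log ((B : ℝ) * X) + 1)) := by
        field_simp
      have h4 : (0 : ℝ) ≤ (R : ℝ) / 2 := by linarith
      calc Real.log ((B : ℝ) * X) + 1
          = (R : ℝ) / 2 * (2 / (R : ℝ) * (Real.log ((B : ℝ) * X) + 1)) := h3
        _ ≤ _ := mul_le_mul_of_nonneg_left h2 h4)
  refine key.trans (Pr_theta.trans ?_)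
  have hlog4 : 0 ≤ Real.log 4 := Real.log_nonneg (by norm_num)
  calc Real.log 4 * (y : ℝ) ≤ Real.log 4 * (2 * Real.exp E) :=
        mul_le_mul_of_nonneg_left hy2 hlog4
    _ = 2 * Real.log 4 * Real.exp E := by ring

end Pool.Agent.Helper8.RU
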