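import Pool.Agent.Helper8.RU.RUd

set_option autoImplicit false

/-!
The number of moduli `q ≤ X` with at least `R` squares among the first `N ≤ N₁` terms of some
progression `q n + a`.
-/

open Finset

namespace Pool.Agent.Helper8.RU

/-- the number of squares among the first `N` terms -/
noncomputable def Qn (N q a : ℕ) : ℕ := by
  classical
  exact ((range N).filter fun n => IsSquare (q * n + a)).card

/-- moduli with `R` squares among the first `N ≤ N₁` terms -/
noncomputable def Exc (R N₁ X : ℕ) : Finset ℕ := by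
  classical
  exact (Icc 1 X).filter fun q => ∃ a N : ℕ, Nat.Coprime q a ∧ N ≤ N₁ ∧ R ≤ Qn N q a

lemma mem_Exc {R N₁ X q : ℕ} : q ∈ Exc R N₁ X ↔
    (1 ≤ q ∧ q ≤ X) ∧ ∃ a N : ℕ, Nat.Coprime q a ∧ N ≤ N₁ ∧ R ≤ Qn N q a := by
  classical
  unfold Exc
  rw [Finset.mem_filter, Finset.mem_Icc]

lemma exc_pattern {R N₁ X q : ℕ} (hR : 2 ≤ R) (hq : q ∈ Exc R N₁ X) :
    ∃ K ∈ powersetCard R (range N₁), ∃ b : ℕ, (q, b) ∈ Pts X ((N₁ * X) ^ 2) K := by
  classical
  rw [mem_Exc] at hq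
  obtain ⟨⟨hq1, hqX⟩, a, N, hqa, hN, hQ⟩ := hq
  unfold Qn at hQ
  obtain ⟨T, hT, hTc⟩ := Finset.exists_subset_card_eq hQ
  have hTne : T.Nonempty := by
    rw [← Finset.card_pos]
    omega
  set n₁ := T.min' hTne with hn₁
  have hmin : ∀ t ∈ T, n₁ ≤ t := fun t ht => Finset.min'_le _ _ ht
  have hn₁T : n₁ ∈ T := Finset.min'_mem _ _
  have hTsq : ∀ t ∈ T, t < N ∧ IsSquare (q * t + a) := by
    intro t ht
    have := hT ht
    rwa [Finset.mem_filter, Finset.mem_range] at this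
  set K := T.image (fun t => t - n₁) with hK
  have hKc : K.card = R := by
    rw [← hTc]
    apply Finset.card_image_of_injOn
    intro s hs t ht hst
    have h1 := hmin s hs
    have h2 := hmin t ht
    simp only at hst
    omega
  refine ⟨K, ?_, q * n₁ + a, ?_⟩
  · rw [Finset.mem_powersetCard]
    refine ⟨?_, hKc⟩
    intro k hk
    obtain ⟨t, ht, rfl⟩ := Finset.mem_image.1 hk
    rw [Finset.mem_range]
    have := (hTsq t ht).1
    omega
  · have hgood : Good K (q, q * n₁ + a) := by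
      intro k hk
      obtain ⟨t, ht, rfl⟩ := Finset.mem_image.1 hk
      have h1 := hmin t ht
      have h2 : q * (t - n₁) + (q * n₁ + a) = q * t + a := by
        rw [← add_assoc, ← Nat.mul_add, Nat.sub_add_cancel h1]
      simp only
      rw [h2]
      exact (hTsq t ht).2
    rw [mem_Pts]
    refine ⟨⟨hq1, hqX⟩, ?_, ?_, hgood⟩
    · -- the bound for the first square
      simp only
      have hcard : 1 < T.card := by omega
      obtain ⟨t, ht, htn⟩ := Finset.exists_mem_ne hcard n₁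
      have h1 : n₁ < t := lt_of_le_of_ne (hmin t ht) (Ne.symm htn)
      obtain ⟨m, hm⟩ := (hTsq n₁ hn₁T).2
      obtain ⟨m', hm'⟩ := (hTsq t ht).2
      have h2 : t - n₁ ≤ N₁ := by
        have := (hTsq t ht).1
        omega
      have h3 : m' * m' = m * m + q * (t - n₁) := by
        rw [← hm, ← hm']
        have : q * t = q * n₁ + q * (t - n₁) := by
          rw [← Nat.mul_add, Nat.add_sub_cancel' h1.le]
        omega
      have h4 : 0 < q * (t - n₁) := Nat.mul_pos (by omega) (by omega)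
      have h5 : m < m' := by
        by_contra h
        push Not at h
        have := Nat.mul_le_mul h h
        omega
      have h6 : m ≤ q * (t - n₁) := by
        have h7 : (m + 1) * (m + 1) ≤ m' * m' := Nat.mul_le_mul h5 h5
        have h8 : (m + 1) * (m + 1) = m * m + 2 * m + 1 := by ring
        omega
      have h7 : m ≤ N₁ * X := by
        refine h6.trans ?_
        rw [mul_comm]
        exact Nat.mul_le_mul h2 hqX
      rw [hm, sq]
      exact Nat.mul_le_mul h7 h7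
    · simp only
      rw [Nat.coprime_mul_left_add_right]
      exact hqa

lemma exc_count {R N₁ X : ℕ} (hR : 2 ≤ R) (hN : 1 ≤ N₁) (hX : 1 ≤ X) :
    ((Exc R N₁ X).card : ℝ) ≤ (N₁ : ℝ) ^ R * (2 * Real.log 4 * Real.exp (2 / (R : ℝ) *
      (Real.log ((((N₁ * X) ^ 2 : ℕ) : ℝ) * X) + 1) + 1 +
        2 * (Real.log ((N₁ + R * (R + 1) + 2 : ℕ) : ℝ) + Real.log 4))) := by
  classical
  have h1 : Exc R N₁ X ⊆ (powersetCard R (range N₁)).biUnion
      (fun K => (Pts X ((N₁ * X) ^ 2) K).image Prod.fst) := by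
    intro q hq
    obtain ⟨K, hK, b, hb⟩ := exc_pattern hR hq
    exact Finset.mem_biUnion.2 ⟨K, hK, Finset.mem_image.2 ⟨_, hb, rfl⟩⟩
  set G := 2 * Real.log 4 * Real.exp (2 / (R : ℝ) *
      (Real.log ((((N₁ * X) ^ 2 : ℕ) : ℝ) * X) + 1) + 1 +
        2 * (Real.log ((N₁ + R * (R + 1) + 2 : ℕ) : ℝ) + Real.log 4)) with hG
  have hG0 : 0 ≤ G := by
    have : 0 ≤ Real.log 4 := Real.log_nonneg (by norm_num)
    positivity
  have h2 : ∀ K ∈ powersetCard R (range N₁),
      (((Pts X ((N₁ * X) ^ 2) K).image Prod.fst).card : ℝ) ≤ G := by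
    intro K hK
    rw [Finset.mem_powersetCard] at hK
    have hKne : K.Nonempty := by
      rw [← Finset.card_pos]
      omega
    have h3 := pattern_count (B := (N₁ * X) ^ 2) (N₁ := N₁) hX
      (Nat.one_le_pow _ _ (Nat.mul_pos hN hX)) K hKne
      (fun k hk => Finset.mem_range.1 (hK.1 hk))
    rw [hK.2] at h3
    exact le_trans (by exact_mod_cast Finset.card_image_le) h3
  calc ((Exc R N₁ X).card : ℝ)
      ≤ (((powersetCard R (range N₁)).biUnion
        (fun K => (Pts X ((N₁ * X) ^ 2) K).image Prod.fst)).card : ℝ) := by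
        exact_mod_cast Finset.card_le_card h1
    _ ≤ ∑ K ∈ powersetCard R (range N₁),
        (((Pts X ((N₁ * X) ^ 2) K).image Prod.fst).card : ℝ) := by
        exact_mod_cast Finset.card_biUnion_le
    _ ≤ ∑ K ∈ powersetCard R (range N₁), G := Finset.sum_le_sum h2
    _ = (N₁.choose R : ℝ) * G := by
        rw [Finset.sum_const, nsmul_eq_mul, Finset.card_powersetCard, Finset.card_range]
    _ ≤ (N₁ : ℝ) ^ R * G := by
        refine mul_le_mul_of_nonneg_right ?_ hG0
        exact_mod_cast Nat.choose_le_pow N₁ R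

/-- clean form of the bound -/
lemma exc_count' {R : ℕ} (hR : 2 ≤ R) : ∃ C : ℝ, 0 < C ∧ ∀ N₁ X : ℕ, 1 ≤ N₁ → 1 ≤ X →
    ((Exc R N₁ X).card : ℝ) ≤ C * (N₁ : ℝ) ^ (R + 4) * (X : ℝ) ^ (6 / (R : ℝ)) := by
  set c : ℝ := (R : ℝ) ^ 2 + R + 3 with hc
  have hR0 : (0 : ℝ) < R := by
    have : 0 < R := by omega
    exact_mod_cast this
  have hR2 : (2 : ℝ) ≤ R := by exact_mod_cast hR
  have hlog4 : 0 < Real.log 4 := Real.log_pos (by norm_num)
  refine ⟨2 * Real.log 4 * Real.exp 2 * c ^ 2 * 16, by positivity, fun N₁ X hN hX => ?_⟩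
  refine (exc_count hR hN hX).trans ?_
  have hN' : (1 : ℝ) ≤ N₁ := by exact_mod_cast hN
  have hX' : (1 : ℝ) ≤ X := by exact_mod_cast hX
  have hN0 : (0 : ℝ) < N₁ := by linarith
  have hX0 : (0 : ℝ) < X := by linarith
  have hlN : 0 ≤ Real.log N₁ := Real.log_nonneg hN'
  have e1 : Real.log ((((N₁ * X) ^ 2 : ℕ) : ℝ) * X) = 2 * Real.log N₁ + 3 * Real.log X := by
    push_cast
    rw [Real.log_mul (by positivity) (by positivity), Real.log_pow,
      Real.log_mul (by positivity) (by positivity)]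
    push_cast
    ring
  have e2 : Real.log ((N₁ + R * (R + 1) + 2 : ℕ) : ℝ) ≤ Real.log c + Real.log N₁ := by
    rw [← Real.log_mul (by positivity) (by positivity)]
    apply Real.log_le_log (by positivity)
    push_cast
    rw [hc]
    nlinarith
  have h1 : 2 / (R : ℝ) * (Real.log ((((N₁ * X) ^ 2 : ℕ) : ℝ) * X) + 1) + 1 +
      2 * (Real.log ((N₁ + R * (R + 1) + 2 : ℕ) : ℝ) + Real.log 4) ≤
      2 + 2 * Real.log c + 2 * Real.log 4 + 4 * Real.log N₁ + Real.log X * (6 / R) := by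
    rw [e1]
    have h2 : 2 / (R : ℝ) ≤ 1 := by
      rw [div_le_one hR0]
      exact hR2
    have h3 : 2 / (R : ℝ) * (2 * Real.log N₁ + 3 * Real.log X + 1) =
        2 / (R : ℝ) * (2 * Real.log N₁ + 1) + Real.log X * (6 / R) := by ring
    have h4 : 2 / (R : ℝ) * (2 * Real.log N₁ + 1) ≤ 1 * (2 * Real.log N₁ + 1) :=
      mul_le_mul_of_nonneg_right h2 (by positivity)
    rw [h3]
    linarith
  have h2 : Real.exp (2 + 2 * Real.log c + 2 * Real.log 4 + 4 * Real.log N₁ +
      Real.log X * (6 / R)) =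
      Real.exp 2 * c ^ 2 * 16 * (N₁ : ℝ) ^ 4 * (X : ℝ) ^ (6 / (R : ℝ)) := by
    have hc0 : 0 < c := by positivity
    rw [Real.exp_add, Real.exp_add, Real.exp_add, Real.exp_add, Real.rpow_def_of_pos hX0]
    have e3 : Real.exp (2 * Real.log c) = c ^ 2 := by
      rw [mul_comm, Real.exp_mul, Real.exp_log hc0]
      norm_num
    have e4 : Real.exp (2 * Real.log 4) = 16 := by
      rw [mul_comm, Real.exp_mul, Real.exp_log (by norm_num)]
      norm_num
    have e5 : Real.exp (4 * Real.log N₁) = (N₁ : ℝ) ^ 4 := by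
      rw [mul_comm, Real.exp_mul, Real.exp_log hN0]
      norm_num
    rw [e3, e4, e5]
  calc (N₁ : ℝ) ^ R * (2 * Real.log 4 * Real.exp (2 / (R : ℝ) *
        (Real.log ((((N₁ * X) ^ 2 : ℕ) : ℝ) * X) + 1) + 1 +
        2 * (Real.log ((N₁ + R * (R + 1) + 2 : ℕ) : ℝ) + Real.log 4)))
      ≤ (N₁ : ℝ) ^ R * (2 * Real.log 4 * Real.exp (2 + 2 * Real.log c + 2 * Real.log 4 +
          4 * Real.log N₁ + Real.log X * (6 / R))) := by
        gcongr
    _ = (N₁ : ℝ) ^ R * (2 * Real.log 4 * (Real.exp 2 * c ^ 2 * 16 * (N₁ : ℝ) ^ 4 *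
          (X : ℝ) ^ (6 / (R : ℝ)))) := by rw [h2]
    _ = _ := by ring

end Pool.Agent.Helper8.RU
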