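import Pool.Agent.Helper8.RU.RUe
import Pool.Agent.Helper30.Rudin.Main

set_option autoImplicit false

/-!
Rudin's conjecture outside a set of `O (X ^ ε)` moduli.
-/

open Finset

namespace Pool.Agent.Helper8.RU

lemma omega_le {q : ℕ} (hq : 1 ≤ q) : (q.primeFactors.card : ℝ) * Real.log 2 ≤ Real.log q := by
  have h1 : 2 ^ q.primeFactors.card ≤ q := by
    calc 2 ^ q.primeFactors.card = ∏ _p ∈ q.primeFactors, 2 := by simp
      _ ≤ ∏ p ∈ q.primeFactors, p := Finset.prod_le_prod' fun p hp =>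
          (Nat.prime_of_mem_primeFactors hp).two_le
      _ ≤ q := Nat.le_of_dvd (by omega) (Nat.prod_primeFactors_dvd q)
  have h2 : ((2 : ℝ) ^ q.primeFactors.card) ≤ q := by exact_mod_cast h1
  have h3 := Real.log_le_log (by positivity) h2
  rwa [Real.log_pow] at h3

theorem main (ε : ℝ) (hε : 0 < ε) : ∃ C δ : ℝ, 0 < δ ∧ ∀ X : ℕ, 1 ≤ X →
    ∃ E : Finset ℕ, (E.card : ℝ) ≤ C * (X : ℝ) ^ ε ∧
      ∀ q : ℕ, 1 ≤ q → q ≤ X → q ∉ E → ∀ a N : ℕ, Nat.Coprime q a →
        (((Finset.range N).filter (fun n => IsSquare (q * n + a))).card : ℝ) ≤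
            C * ((N : ℝ) ^ ε + Real.sqrt N * (q : ℝ) ^ (ε - 1 / 2)) ∧
        ((N : ℝ) ≤ (X : ℝ) ^ δ →
          (((Finset.range N).filter (fun n => IsSquare (q * n + a))).card : ℝ) ≤ C) := by
  set R : ℕ := ⌈12 / ε⌉₊ + 2 with hR
  have hR2 : 2 ≤ R := by omega
  have hR0 : (0 : ℝ) < R := by
    have : 0 < R := by omega
    exact_mod_cast this
  have hRε : 6 / (R : ℝ) ≤ ε / 2 := by
    have h1 : 12 / ε ≤ R := by
      have := Nat.le_ceil (12 / ε)
      rw [hR]
      push_cast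
      linarith
    rw [div_le_iff₀ hε] at h1
    rw [div_le_iff₀ hR0]
    linarith
  set δ : ℝ := ε / (2 * (R + 4)) with hδ
  have hδ0 : 0 < δ := by positivity
  obtain ⟨C₁, hC₁, hexc⟩ := exc_count' hR2
  obtain ⟨C₂, hfew⟩ := Pool.Helper30.Rudin.main ε hε
  set C₃ : ℝ := 1 + 1 / (δ * ε * Real.log 2) with hC₃
  have hlog2 : 0 < Real.log 2 := Real.log_pos (by norm_num)
  have hC₃0 : 1 ≤ C₃ := by
    have : 0 ≤ 1 / (δ * ε * Real.log 2) := by positivity
    linarith
  refine ⟨max C₁ (max (R : ℝ) (max C₂ 0 * C₃)), δ, hδ0, fun X hX => ?_⟩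
  set C := max C₁ (max (R : ℝ) (max C₂ 0 * C₃)) with hC
  have hCC₁ : C₁ ≤ C := le_max_left _ _
  have hCR : (R : ℝ) ≤ C := (le_max_left _ _).trans (le_max_right _ _)
  have hCC₂ : max C₂ 0 * C₃ ≤ C := (le_max_right _ _).trans (le_max_right _ _)
  have hX' : (1 : ℝ) ≤ X := by exact_mod_cast hX
  have hX0 : (0 : ℝ) < X := by linarith
  have hXδ : 1 ≤ (X : ℝ) ^ δ := Real.one_le_rpow hX' hδ0.le
  set N₁ := ⌊(X : ℝ) ^ δ⌋₊ with hN₁
  have hN₁1 : 1 ≤ N₁ := by
    rw [hN₁, Nat.one_le_floor_iff]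
    exact hXδ
  have hN₁2 : (N₁ : ℝ) ≤ (X : ℝ) ^ δ := Nat.floor_le (by positivity)
  refine ⟨Exc R N₁ X, ?_, fun q hq hqX hqE a N hqa => ?_⟩
  · refine (hexc N₁ X hN₁1 hX).trans ?_
    have h1 : (N₁ : ℝ) ^ (R + 4) ≤ (X : ℝ) ^ (ε / 2) := by
      calc (N₁ : ℝ) ^ (R + 4) ≤ ((X : ℝ) ^ δ) ^ (R + 4) :=
            pow_le_pow_left₀ (Nat.cast_nonneg _) hN₁2 _
        _ = (X : ℝ) ^ (ε / 2) := by
            rw [← Real.rpow_natCast, ← Real.rpow_mul hX0.le]
            congr 1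
            rw [hδ]
            push_cast
            field_simp
    have h2 : (X : ℝ) ^ (6 / (R : ℝ)) ≤ (X : ℝ) ^ (ε / 2) :=
      Real.rpow_le_rpow_of_exponent_le hX' hRε
    calc C₁ * (N₁ : ℝ) ^ (R + 4) * (X : ℝ) ^ (6 / (R : ℝ))
        ≤ C₁ * (X : ℝ) ^ (ε / 2) * (X : ℝ) ^ (ε / 2) := by gcongr
      _ = C₁ * (X : ℝ) ^ ε := by
          rw [mul_assoc, ← Real.rpow_add hX0]
          congr 2
          ring
      _ ≤ C * (X : ℝ) ^ ε := mul_le_mul_of_nonneg_right hCC₁ (by positivity)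
  · have hcard : ∀ N : ℕ, ((Finset.range N).filter (fun n => IsSquare (q * n + a))).card =
        Qn N q a := by
      intro N
      unfold Qn
      congr
    have hsmall : (N : ℝ) ≤ (X : ℝ) ^ δ →
        (((Finset.range N).filter (fun n => IsSquare (q * n + a))).card : ℝ) ≤ R := by
      intro hN
      rw [hcard]
      by_contra h
      push Not at h
      apply hqE
      rw [mem_Exc]
      refine ⟨⟨hq, hqX⟩, a, N, hqa, Nat.le_floor hN, ?_⟩
      exact_mod_cast h.le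
    refine ⟨?_, fun hN => (hsmall hN).trans hCR⟩
    rcases Nat.eq_zero_or_pos N with hN0 | hN0
    · subst hN0
      simp only [range_zero, filter_empty, card_empty, Nat.cast_zero, Real.sqrt_zero, zero_mul,
        add_zero]
      rw [Real.zero_rpow hε.ne', mul_zero]
    have hN1 : (1 : ℝ) ≤ N := by exact_mod_cast hN0
    have hq0 : (0 : ℝ) < q := by exact_mod_cast hq
    have hNε : 1 ≤ (N : ℝ) ^ ε := Real.one_le_rpow hN1 hε.le
    have hsq : 0 ≤ Real.sqrt N * (q : ℝ) ^ (ε - 1 / 2) := by positivity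
    have hCpos : 0 ≤ C := hR0.le.trans hCR
    by_cases hN : (N : ℝ) ≤ (X : ℝ) ^ δ
    · calc (((Finset.range N).filter (fun n => IsSquare (q * n + a))).card : ℝ) ≤ R := hsmall hN
        _ ≤ C * 1 := by linarith
        _ ≤ C * ((N : ℝ) ^ ε + Real.sqrt N * (q : ℝ) ^ (ε - 1 / 2)) :=
            mul_le_mul_of_nonneg_left (by linarith) hCpos
    · push Not at hN
      have h1 := hfew N q a hN0 hq hqa
      have h2 : (q.primeFactors.card : ℝ) ≤ 1 / (δ * ε * Real.log 2) * (N : ℝ) ^ ε := by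
        have h3 := omega_le hq
        have h4 : Real.log q ≤ Real.log X :=
          Real.log_le_log hq0 (by exact_mod_cast hqX)
        have h5 : Real.log X ≤ (X : ℝ) ^ (δ * ε) / (δ * ε) :=
          Real.log_le_rpow_div hX0.le (by positivity)
        have h6 : (X : ℝ) ^ (δ * ε) ≤ (N : ℝ) ^ ε := by
          rw [Real.rpow_mul hX0.le]
          exact Real.rpow_le_rpow (by positivity) hN.le hε.le
        have h7 : (q.primeFactors.card : ℝ) ≤ Real.log X / Real.log 2 := by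
          rw [le_div_iff₀ hlog2]
          linarith
        refine h7.trans ?_
        rw [div_le_iff₀ hlog2]
        calc Real.log X ≤ (X : ℝ) ^ (δ * ε) / (δ * ε) := h5
          _ ≤ (N : ℝ) ^ ε / (δ * ε) := by gcongr
          _ = 1 / (δ * ε * Real.log 2) * (N : ℝ) ^ ε * Real.log 2 := by
              field_simp
      calc (((Finset.range N).filter (fun n => IsSquare (q * n + a))).card : ℝ)
          ≤ C₂ * ((N : ℝ) ^ ε + Real.sqrt N * (q : ℝ) ^ (ε - 1 / 2) +
            (q.primeFactors.card : ℝ)) := h1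
        _ ≤ max C₂ 0 * ((N : ℝ) ^ ε + Real.sqrt N * (q : ℝ) ^ (ε - 1 / 2) +
            (q.primeFactors.card : ℝ)) := by
            refine mul_le_mul_of_nonneg_right (le_max_left _ _) ?_
            positivity
        _ ≤ max C₂ 0 * (C₃ * ((N : ℝ) ^ ε + Real.sqrt N * (q : ℝ) ^ (ε - 1 / 2))) := by
            refine mul_le_mul_of_nonneg_left ?_ (le_max_right _ _)
            rw [hC₃]
            have h3 : 0 ≤ 1 / (δ * ε * Real.log 2) := by positivity
            have h4 : 0 ≤ 1 / (δ * ε * Real.log 2) *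
              (Real.sqrt N * (q : ℝ) ^ (ε - 1 / 2)) := mul_nonneg h3 hsq
            linarith
        _ = max C₂ 0 * C₃ * ((N : ℝ) ^ ε + Real.sqrt N * (q : ℝ) ^ (ε - 1 / 2)) := by ring
        _ ≤ C * ((N : ℝ) ^ ε + Real.sqrt N * (q : ℝ) ^ (ε - 1 / 2)) :=
            mul_le_mul_of_nonneg_right hCC₂ (by positivity)

end Pool.Agent.Helper8.RU
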